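import Pool.Agent.Y442.BP.Upper2
import Pool.Agent.TH479.BP.Cube

set_option autoImplicit false

/-!
Uniform bounds for the maximum percolation time of the hypercube.
-/

namespace Pool.Agent.Y442.BP

open Pool.Agent.TH479.BP

/-- The bipartition of the cube. -/
def parity {n : ℕ} (v : Fin n → Fin 2) : Fin 2 := ∑ i, v i

theorem parity_ne {n : ℕ} (u v : Fin n → Fin 2) (h : (cube n 2).Adj u v) :
    parity u ≠ parity v := by
  obtain ⟨i, hi, hu⟩ := h
  intro heq
  have h1 : ∑ j, (u j - v j) = 0 := by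
    rw [Finset.sum_sub_distrib]
    exact sub_eq_zero.mpr heq
  have h2 : ∑ j, (u j - v j) = u i - v i := by
    apply Finset.sum_eq_single i
    · intro j _ hj
      by_contra hne
      exact hj (hu j (fun h => hne (by rw [h, sub_self])))
    · intro h
      exact absurd (Finset.mem_univ i) h
  rw [h2] at h1
  exact hi (sub_eq_zero.mp h1)

theorem cube_upper (n r : ℕ) (hr : 1 ≤ r) :
    maxTime (cube n 2) r * (n - (r - 1)) ≤ (r + 1) * 2 ^ n := by
  obtain ⟨A, -, hAt⟩ := maxTime_mem (cube n 2) r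
  have h := upper_bip (cube n 2) n r hr parity parity_ne (fun v => (cube_degree n v).ge) A
  rw [← hAt] at h
  have hc : Fintype.card (Fin n → Fin 2) = 2 ^ n := by simp
  rw [hc] at h
  rw [mul_comm (r + 1)]
  exact h

theorem cube_lower (n r : ℕ) (hr : 3 ≤ r) (hn : r ≤ n) :
    2 ^ n ≤ 2 ^ (2 ^ 15 + r) * n * maxTime (cube n 2) r := by
  by_cases hbig : 2 ^ 15 + (r - 3) ≤ n
  · refine (lower_large r n hr hbig).trans ?_
    exact Nat.mul_le_mul_right _ (Nat.mul_le_mul_right _
      (Nat.pow_le_pow_right (by norm_num) (by omega)))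
  · have h1 := (has_zero n r hn).lt_maxTime
    calc 2 ^ n = 2 ^ n * 1 * 1 := by ring
      _ ≤ 2 ^ (2 ^ 15 + r) * n * maxTime (cube n 2) r := by
        apply Nat.mul_le_mul (Nat.mul_le_mul (Nat.pow_le_pow_right (by norm_num) ?_) ?_) ?_
        · omega
        · omega
        · omega

end Pool.Agent.Y442.BP
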