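import Pool.Agent.TH479.BP.Basic

set_option autoImplicit false

/-!
The percolation time of a percolating set in a bipartite graph of minimum degree at least `n` is at
most `(r + 1) |V| / (n - r + 1)`. The vertices that are counted form a path.
-/

namespace Pool.Agent.Y442.BP

open Set Finset Pool.Agent.TH479.BP

variable {V : Type*} [Fintype V] {G : SimpleGraph V} {r : ℕ} {A : Set V}

/-- A vertex infected exactly at time `i + 1`. -/
theorem exists_exact {i : ℕ} (hi : i < time G r A) :
    ∃ v, v ∈ stage G r A (i + 1) ∧ v ∉ stage G r A i := by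
  by_contra hcon
  push Not at hcon
  have h1 : stage G r A (i + 1) = stage G r A i :=
    Set.Subset.antisymm (fun v hv => hcon v hv) (stage_mono_succ i)
  have h2 : ∀ j, stage G r A (i + j) = stage G r A i := by
    intro j
    induction j with
    | zero => rfl
    | succ j ih =>
      change step G r (stage G r A (i + j)) = _
      rw [ih]
      exact h1
  have h3 : stage G r A i = closure G r A := by
    rw [← stage_time (G := G) (r := r) (A := A)]
    obtain ⟨j, hj⟩ : ∃ j, time G r A = i + j := ⟨time G r A - i, by omega⟩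
    rw [hj, h2 j]
  have h4 : time G r A ≤ i := Nat.sInf_le (s := {t | stage G r A t = closure G r A}) h3
  omega

/-- A vertex infected exactly at time `i + 2` has a neighbour infected exactly at time `i + 1`. -/
theorem exists_prev {i : ℕ} {x : V} (h1 : x ∈ stage G r A (i + 2)) (h2 : x ∉ stage G r A (i + 1)) :
    ∃ u, G.Adj u x ∧ u ∈ stage G r A (i + 1) ∧ u ∉ stage G r A i := by
  by_contra hcon
  push Not at hcon
  have h3 : r ≤ (G.neighborSet x ∩ stage G r A (i + 1)).ncard := by
    rcases h1 with h | h
    · exact absurd h h2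
    · exact h
  apply h2
  right
  change r ≤ (G.neighborSet x ∩ stage G r A i).ncard
  refine h3.trans (Set.ncard_le_ncard ?_ (Set.toFinite _))
  rintro u ⟨hu, hu1⟩
  exact ⟨hu, hcon u hu.symm hu1⟩

/-- A path of vertices infected exactly at the times `1, …, k + 1`. -/
theorem exists_path (k : ℕ) : ∀ x : V, x ∈ stage G r A (k + 1) → x ∉ stage G r A k →
    ∃ v : ℕ → V, v k = x ∧ (∀ i ≤ k, v i ∈ stage G r A (i + 1) ∧ v i ∉ stage G r A i) ∧
      ∀ i < k, G.Adj (v i) (v (i + 1)) := by
  classical
  induction k with
  | zero =>
    intro x h1 h2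
    refine ⟨fun _ => x, rfl, ?_, fun i hi => absurd hi (Nat.not_lt_zero _)⟩
    intro i hi
    obtain rfl : i = 0 := by omega
    exact ⟨h1, h2⟩
  | succ k ih =>
    intro x h1 h2
    obtain ⟨u, hux, hu1, hu2⟩ := exists_prev h1 h2
    obtain ⟨v, hvk, hv1, hv2⟩ := ih u hu1 hu2
    refine ⟨Function.update v (k + 1) x, Function.update_self _ _ _, ?_, ?_⟩
    · intro i hi
      rcases Nat.lt_or_ge i (k + 1) with h | h
      · rw [Function.update_of_ne (by omega)]
        exact hv1 i (by omega)
      · obtain rfl : i = k + 1 := by omega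
        rw [Function.update_self]
        exact ⟨h1, h2⟩
    · intro i hi
      rw [Function.update_of_ne (by omega : i ≠ k + 1)]
      rcases Nat.lt_or_ge i k with h | h
      · rw [Function.update_of_ne (by omega : i + 1 ≠ k + 1)]
        exact hv2 i h
      · obtain rfl : i = k := by omega
        rw [Function.update_self, hvk]
        exact hux

/-- The upper bound for bipartite graphs. -/
theorem upper_bip (G : SimpleGraph V) (n r : ℕ) (hr : 1 ≤ r) (col : V → Fin 2)
    (hcol : ∀ u v, G.Adj u v → col u ≠ col v)
    (hdeg : ∀ v, n ≤ (G.neighborSet v).ncard) (A : Set V) :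
    time G r A * (n - (r - 1)) ≤ Fintype.card V * (r + 1) := by
  classical
  set T := time G r A with hT
  rcases Nat.eq_zero_or_pos T with hT0 | hT0
  · rw [hT0]; simp
  obtain ⟨x, hx1, hx2⟩ := exists_exact (G := G) (r := r) (A := A) (i := T - 1) (by omega)
  obtain ⟨v, -, hv, hpath⟩ := exists_path (T - 1) x hx1 hx2
  have hv1 : ∀ i, i < T → v i ∈ stage G r A (i + 1) := fun i hi => (hv i (by omega)).1
  have hv2 : ∀ i, i < T → v i ∉ stage G r A i := fun i hi => (hv i (by omega)).2
  have hcon : ∀ i u, i + 1 < T → G.Adj (v i) u → ¬ G.Adj (v (i + 1)) u := by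
    intro i u hi h1 h2
    have e1 := hcol _ _ h1
    have e2 := hcol _ _ h2
    have e3 := hcol _ _ (hpath i (by omega))
    revert e1 e2 e3
    generalize col (v i) = a
    generalize col (v (i + 1)) = b
    generalize col u = c
    revert a b c
    decide
  let R : ℕ → V → Prop := fun i u => G.Adj (v i) u ∧ ∀ j < i, u ∉ stage G r A j
  have key := Finset.card_mul_le_card_mul (s := Finset.range T) (t := (Finset.univ : Finset V)) R
    (m := n - (r - 1)) (n := r + 1) ?_ ?_
  · simpa using key
  · intro i hi
    have hiT : i < T := Finset.mem_range.1 hi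
    -- count neighbours
    have h1 : (G.neighborSet (v i) ∩ {u | ¬ ∀ j < i, u ∉ stage G r A j}).ncard ≤ r - 1 := by
      by_contra hcon
      rw [not_le] at hcon
      rcases Nat.eq_zero_or_pos i with h0 | h0
      · subst h0
        simp at hcon
      · have h2 : G.neighborSet (v i) ∩ {u | ¬ ∀ j < i, u ∉ stage G r A j} ⊆
            G.neighborSet (v i) ∩ stage G r A (i - 1) := by
          rintro u ⟨hu1, hu2⟩
          refine ⟨hu1, ?_⟩
          have hu3 : ¬ ∀ j < i, u ∉ stage G r A j := hu2
          push Not at hu3
          obtain ⟨j, hj, hj2⟩ := hu3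
          exact stage_mono (by omega : j ≤ i - 1) hj2
        have h3 := Set.ncard_le_ncard h2 (Set.toFinite _)
        have h4 : v i ∈ stage G r A (i - 1 + 1) := Or.inr (by
          change r ≤ _
          omega)
        rw [Nat.sub_add_cancel h0] at h4
        exact hv2 i hiT h4
    have h5 : (Finset.bipartiteAbove R Finset.univ i : Finset V).card =
        (G.neighborSet (v i) ∩ {u | ∀ j < i, u ∉ stage G r A j}).ncard := by
      rw [← Set.ncard_coe_finset]
      congr 1
      ext u
      simp [Finset.bipartiteAbove, R]
    have h6 := Set.ncard_inter_add_ncard_sdiff_eq_ncard (G.neighborSet (v i))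
      {u | ∀ j < i, u ∉ stage G r A j} (Set.toFinite _)
    have h7 : (G.neighborSet (v i) \ {u | ∀ j < i, u ∉ stage G r A j}) =
        (G.neighborSet (v i) ∩ {u | ¬ ∀ j < i, u ∉ stage G r A j}) := by
      ext u; rfl
    rw [h7] at h6
    have h8 := hdeg (v i)
    rw [h5]
    omega
  · intro u _
    set I := Finset.bipartiteBelow R (Finset.range T) u with hI
    have hmem : ∀ i, i ∈ I ↔ i < T ∧ G.Adj (v i) u ∧ ∀ j < i, u ∉ stage G r A j := by
      intro i
      simp [hI, Finset.bipartiteBelow, R]
    rcases I.eq_empty_or_nonempty with h0 | h0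
    · rw [h0]; simp
    set M := I.max' h0 with hM
    have hMI : M ∈ I := I.max'_mem h0
    have h1 : (I.filter (fun i => i + 3 ≤ M)).card < r := by
      by_contra hcon
      push Not at hcon
      have hne : (I.filter (fun i => i + 3 ≤ M)).Nonempty := by
        rw [← Finset.card_pos]; omega
      obtain ⟨i0, hi0⟩ := hne
      have hM3 : 3 ≤ M := by
        have := (Finset.mem_filter.1 hi0).2
        omega
      have hinj : Set.InjOn v ((I.filter (fun i => i + 3 ≤ M) : Finset ℕ) : Set ℕ) := by
        intro i hi j hj hij
        have hi' := (hmem i).1 (Finset.mem_filter.1 hi).1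
        have hj' := (hmem j).1 (Finset.mem_filter.1 hj).1
        rcases lt_trichotomy i j with h | h | h
        · exfalso
          apply hv2 j hj'.1
          rw [← hij]
          exact stage_mono (by omega : i + 1 ≤ j) (hv1 i hi'.1)
        · exact h
        · exfalso
          apply hv2 i hi'.1
          rw [hij]
          exact stage_mono (by omega : j + 1 ≤ i) (hv1 j hj'.1)
      have h2 : (v '' ((I.filter (fun i => i + 3 ≤ M) : Finset ℕ) : Set ℕ)) ⊆
          G.neighborSet u ∩ stage G r A (M - 2) := by
        rintro _ ⟨i, hi, rfl⟩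
        have hi' := (hmem i).1 (Finset.mem_filter.1 hi).1
        have hi3 := (Finset.mem_filter.1 hi).2
        exact ⟨hi'.2.1.symm, stage_mono (by omega : i + 1 ≤ M - 2) (hv1 i hi'.1)⟩
      have h3 := Set.ncard_le_ncard h2 (Set.toFinite _)
      rw [hinj.ncard_image, Set.ncard_coe_finset] at h3
      have h4 : u ∈ stage G r A (M - 2 + 1) := Or.inr (by
        change r ≤ _
        omega)
      exact ((hmem M).1 hMI).2.2 (M - 2 + 1) (by omega) h4
    have h2 : I ⊆ (I.filter (fun i => i + 3 ≤ M)) ∪ {M - 2, M} := by
      intro i hi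
      have hle := I.le_max' i hi
      rw [← hM] at hle
      simp only [Finset.mem_union, Finset.mem_filter, Finset.mem_insert, Finset.mem_singleton]
      by_cases h : i + 3 ≤ M
      · exact Or.inl ⟨hi, h⟩
      · right
        by_cases h' : i + 1 = M
        · exfalso
          have hi' := (hmem i).1 hi
          have hM' := (hmem M).1 hMI
          rw [← h'] at hM'
          exact hcon i u hM'.1 hi'.2.1 hM'.2.1
        · omega
    have h3 := Finset.card_le_card h2
    have h4 := Finset.card_union_le (I.filter (fun i => i + 3 ≤ M)) {M - 2, M}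
    have h5 : ({M - 2, M} : Finset ℕ).card ≤ 2 := Finset.card_le_two
    omega

end Pool.Agent.Y442.BP
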